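import Pool.Agent.W709.VC.GeoDefs

/-!
# The Bloch-Wigner function through Lobachevsky's function: symmetries, five term relation, fans
-/

set_option autoImplicit false

namespace Pool.Agent.W505.VC

open Filter Finset EvenVol GapVol EvenVol.LobIneq Pool.Agent.W709.VC
open scoped Real Topology

lemma lob_eq_of_coe {a b : ℝ} (h : (a : Real.Angle) = b) : lob a = lob b := by
  obtain ⟨k, hk⟩ := Real.Angle.angle_eq_iff_two_pi_dvd_sub.1 h
  have h1 := (lob_per.int_mul (2 * k)) b
  rw [← h1]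
  congr 1
  push_cast
  linarith

/-- Lobachevsky's function of the argument -/
noncomputable def Lam (z : ℂ) : ℝ := lob (Complex.arg z)

lemma Lam_inv (z : ℂ) : Lam z⁻¹ = -Lam z := by
  unfold Lam
  rw [← lob_neg]
  apply lob_eq_of_coe
  rw [Complex.arg_inv_coe_angle]
  simp

lemma Lam_conj (z : ℂ) : Lam ((starRingEnd ℂ) z) = -Lam z := by
  unfold Lam
  rw [← lob_neg]
  apply lob_eq_of_coe
  rw [Complex.arg_conj_coe_angle]
  simp

lemma Lam_neg (z : ℂ) : Lam (-z) = Lam z := by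
  rcases eq_or_ne z 0 with rfl | hz
  · simp
  · unfold Lam
    rw [← lob_per (Complex.arg z)]
    apply lob_eq_of_coe
    rw [Complex.arg_neg_coe_angle hz]
    simp

lemma Lam_div {z w : ℂ} (hz : z ≠ 0) (hw : w ≠ 0) :
    Lam (z / w) = lob (Complex.arg z - Complex.arg w) := by
  unfold Lam
  apply lob_eq_of_coe
  rw [Complex.arg_div_coe_angle hz hw]
  simp

lemma Lam_zero : Lam 0 = 0 := by
  unfold Lam
  simp [lob_zero]

lemma Lam_one : Lam 1 = 0 := by
  unfold Lam
  simp [lob_zero]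

lemma Dv_eq' (z : ℂ) : Dv z = Lam z - Lam (1 - z) + Lam (1 - 1 / z) := by
  unfold Dv
  rw [show lob (Complex.arg (1 / (1 - z))) = Lam (1 - z)⁻¹ by rw [one_div]; rfl, Lam_inv]
  rfl

lemma Dv_eq {z : ℂ} (hz : z ≠ 0) : Dv z = Lam z - Lam (1 - z) + Lam ((1 - z) / z) := by
  rw [Dv_eq', show 1 - 1 / z = -((1 - z) / z) by field_simp; ring, Lam_neg]

lemma Dv_zero : Dv 0 = 0 := by
  rw [Dv_eq']
  simp [Lam_zero, Lam_one]

lemma Dv_one : Dv 1 = 0 := by
  rw [Dv_eq']
  simp [Lam_zero, Lam_one]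

lemma Dv_conj (z : ℂ) : Dv ((starRingEnd ℂ) z) = -Dv z := by
  rw [Dv_eq', Dv_eq', Lam_conj]
  rw [show 1 - (starRingEnd ℂ) z = (starRingEnd ℂ) (1 - z) by simp, Lam_conj,
    show 1 - 1 / (starRingEnd ℂ) z = (starRingEnd ℂ) (1 - 1 / z) by simp, Lam_conj]
  ring

lemma Dv_one_sub (z : ℂ) : Dv (1 - z) = -Dv z := by
  rcases eq_or_ne z 0 with rfl | hz
  · simp [Dv_zero, Dv_one]
  rcases eq_or_ne z 1 with rfl | hz1
  · simp [Dv_zero, Dv_one]
  have h1 : 1 - z ≠ 0 := sub_ne_zero.2 (Ne.symm hz1)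
  rw [Dv_eq hz, Dv_eq h1, sub_sub_cancel, show z / (1 - z) = ((1 - z) / z)⁻¹ by rw [inv_div],
    Lam_inv]
  ring

lemma Dv_inv (z : ℂ) : Dv z⁻¹ = -Dv z := by
  rcases eq_or_ne z 0 with rfl | hz
  · simp [Dv_zero]
  rw [Dv_eq', Dv_eq', Lam_inv, one_div, one_div, inv_inv]
  ring

theorem dsym : S_DSYM := ⟨Dv_conj, Dv_one_sub, Dv_inv⟩

/-! ### continuity -/

/-- Lobachevsky's function on angles -/
noncomputable def lobT : Real.Angle → ℝ :=
  Quotient.lift (s := QuotientAddGroup.leftRel (AddSubgroup.zmultiples (2 * π))) lob (by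
    intro a b hab
    apply lob_eq_of_coe
    exact Quotient.sound hab)

lemma lobT_coe (x : ℝ) : lobT (x : Real.Angle) = lob x := rfl

lemma lobT_cont : Continuous lobT := Continuous.quotient_lift lob_cont _

lemma Lam_contAt {z : ℂ} (hz : z ≠ 0) : ContinuousAt Lam z := by
  have h : Lam = lobT ∘ ((↑) ∘ Complex.arg) := by
    funext w
    rfl
  rw [h]
  exact lobT_cont.continuousAt.comp (Complex.continuousAt_arg_coe_angle hz)

lemma Dv_contAt_zero : ContinuousAt Dv 0 := by
  have hU : UniformContinuousOn lob (Set.Icc (-(2 * π)) (2 * π)) :=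
    isCompact_Icc.uniformContinuousOn_of_continuous lob_cont.continuousOn
  have harg : Tendsto (fun z : ℂ => Complex.arg (1 - z)) (𝓝 0) (𝓝 0) := by
    have h1 : ContinuousAt (fun z : ℂ => Complex.arg (1 - z)) 0 := by
      apply ContinuousAt.comp (g := Complex.arg)
      · apply Complex.continuousAt_arg
        simp [Complex.mem_slitPlane_iff]
      · fun_prop
    have h2 := h1.tendsto
    simpa using h2
  have hlam : Tendsto (fun z : ℂ => Lam (1 - z)) (𝓝 0) (𝓝 0) := by
    have := (lob_cont.tendsto 0).comp harg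
    rw [lob_zero] at this
    exact this
  unfold ContinuousAt
  rw [Dv_zero]
  rw [Metric.tendsto_nhds]
  intro ε hε
  obtain ⟨δ, hδ, hδ2⟩ := (Metric.uniformContinuousOn_iff.1 hU) (ε / 2) (half_pos hε)
  have e1 := (Metric.tendsto_nhds.1 harg) δ hδ
  have e2 := (Metric.tendsto_nhds.1 hlam) (ε / 2) (half_pos hε)
  have e3 : ∀ᶠ z : ℂ in 𝓝 0, z ≠ 1 := isOpen_ne.mem_nhds (by simp)
  filter_upwards [e1, e2, e3] with z h1 h2 h3
  rcases eq_or_ne z 0 with rfl | hz
  · simpa [Dv_zero] using hε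
  have h4 : (1 : ℂ) - z ≠ 0 := sub_ne_zero.2 (Ne.symm h3)
  rw [Dv_eq hz, Lam_div h4 hz, show Complex.arg (1 - z) - Complex.arg z =
    -(Complex.arg z - Complex.arg (1 - z)) by ring, lob_neg]
  have b1 := Complex.neg_pi_lt_arg z
  have b2 := Complex.arg_le_pi z
  have b3 := Complex.neg_pi_lt_arg (1 - z)
  have b4 := Complex.arg_le_pi (1 - z)
  have hp := Real.pi_pos
  have h5 := hδ2 (Complex.arg z) ⟨by linarith, by linarith⟩ (Complex.arg z - Complex.arg (1 - z))
    ⟨by linarith, by linarith⟩ (by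
      rw [Real.dist_eq] at h1 ⊢
      rw [show Complex.arg z - (Complex.arg z - Complex.arg (1 - z)) = Complex.arg (1 - z) - 0 by
        ring]
      exact h1)
  rw [Real.dist_eq] at h2 h5 ⊢
  have h6 : Lam z - Lam (1 - z) + -lob (Complex.arg z - Complex.arg (1 - z)) - 0 =
    (lob (Complex.arg z) - lob (Complex.arg z - Complex.arg (1 - z))) - (Lam (1 - z) - 0) := by
    unfold Lam
    ring
  rw [h6]
  refine lt_of_le_of_lt (abs_sub _ _) ?_
  linarith

lemma Dv_cont : Continuous Dv := by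
  rw [continuous_iff_continuousAt]
  intro z
  rcases eq_or_ne z 0 with rfl | hz
  · exact Dv_contAt_zero
  rcases eq_or_ne z 1 with rfl | hz1
  · have h : Dv = fun w => -Dv (1 - w) := by
      funext w
      rw [Dv_one_sub, neg_neg]
    rw [h]
    apply ContinuousAt.neg
    apply ContinuousAt.comp (g := Dv)
    · rw [sub_self]
      exact Dv_contAt_zero
    · fun_prop
  · have h1 : 1 - z ≠ 0 := sub_ne_zero.2 (Ne.symm hz1)
    have hev : (fun w => Lam w - Lam (1 - w) + Lam ((1 - w) / w)) =ᶠ[𝓝 z] Dv := by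
      filter_upwards [isOpen_ne.mem_nhds hz] with w hw
      exact (Dv_eq hw).symm
    refine ContinuousAt.congr ?_ hev
    apply ContinuousAt.add
    · apply ContinuousAt.sub (Lam_contAt hz)
      apply ContinuousAt.comp (g := Lam)
      · exact Lam_contAt h1
      · fun_prop
    · apply ContinuousAt.comp (g := Lam)
      · exact Lam_contAt (div_ne_zero h1 hz)
      · exact ContinuousAt.div (by fun_prop) continuousAt_id hz

/-! ### derivatives -/

lemma g_contAt {x : ℝ} (hx : Real.sin x ≠ 0) : ContinuousAt g x := by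
  unfold g
  apply ContinuousAt.neg
  apply ContinuousAt.log (by fun_prop)
  simpa using hx

lemma g_meas : Measurable g := by
  unfold g
  exact (Real.measurable_log.comp (by fun_prop)).neg

lemma lob_hasDerivAt {x : ℝ} (hx : Real.sin x ≠ 0) : HasDerivAt lob (g x) x := by
  have h : lob = fun x => ∫ t in (0:ℝ)..x, g t := by
    ext x; exact lob_eq x
  rw [h]
  exact intervalIntegral.integral_hasDerivAt_right (g_int _ _)
    (g_meas.stronglyMeasurable.stronglyMeasurableAtFilter) (g_contAt hx)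

/-- logarithmic derivative -/
def LD (f : ℝ → ℂ) (p : ℂ) (t : ℝ) : Prop := HasDerivAt f (p * f t) t

lemma LD.mul {f h : ℝ → ℂ} {p q : ℂ} {t : ℝ} (hf : LD f p t) (hh : LD h q t) :
    LD (fun s => f s * h s) (p + q) t := by
  unfold LD at *
  refine HasDerivAt.congr_deriv (HasDerivAt.mul hf hh) ?_
  ring

lemma LD.inv {f : ℝ → ℂ} {p : ℂ} {t : ℝ} (hf : LD f p t) (h0 : f t ≠ 0) :
    LD (fun s => (f s)⁻¹) (-p) t := by
  unfold LD at *
  refine HasDerivAt.congr_deriv (HasDerivAt.inv hf h0) ?_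
  field_simp

lemma LD.div {f h : ℝ → ℂ} {p q : ℂ} {t : ℝ} (hf : LD f p t) (hh : LD h q t) (h0 : h t ≠ 0) :
    LD (fun s => f s / h s) (p - q) t := by
  simp only [div_eq_mul_inv]
  rw [sub_eq_add_neg]
  exact hf.mul (hh.inv h0)

lemma LD.const (c : ℂ) (t : ℝ) : LD (fun _ => c) 0 t := by
  unfold LD
  rw [zero_mul]
  exact hasDerivAt_const _ _

lemma LD.congr {f h : ℝ → ℂ} {p : ℂ} {t : ℝ} (hf : LD f p t) (he : h =ᶠ[𝓝 t] f) : LD h p t := by
  unfold LD at *
  rw [he.eq_of_nhds]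
  exact hf.congr_of_eventuallyEq he

lemma LD.lam {f : ℝ → ℂ} {p : ℂ} {t : ℝ} (hf : LD f p t) (h0 : (f t).im ≠ 0) :
    HasDerivAt (fun s => Lam (f s))
      ((Real.log ‖f t‖ - Real.log (2 * |(f t).im|)) * p.im) t := by
  have hne : f t ≠ 0 := by
    intro h
    rw [h] at h0
    simp at h0
  have h1 : HasDerivAt (fun s => Complex.log (f s)) (p * f t / f t) t :=
    HasDerivAt.clog_real hf (by rw [Complex.mem_slitPlane_iff]; exact Or.inr h0)
  rw [mul_div_cancel_right₀ _ hne] at h1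
  have h2 : HasDerivAt (fun s => Complex.arg (f s)) p.im t := by
    have := Complex.imCLM.hasFDerivAt.comp_hasDerivAt t h1
    simpa [Function.comp_def, Complex.log_im] using this
  have hsin : Real.sin (Complex.arg (f t)) = (f t).im / ‖f t‖ := Complex.sin_arg _
  have hn : 0 < ‖f t‖ := norm_pos_iff.2 hne
  have h3 : Real.sin (Complex.arg (f t)) ≠ 0 := by
    rw [hsin]
    exact div_ne_zero h0 hn.ne'
  have h4 := (lob_hasDerivAt h3).comp t h2
  have h5 : g (Complex.arg (f t)) = Real.log ‖f t‖ - Real.log (2 * |(f t).im|) := by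
    rw [g_eq_abs, hsin, abs_mul, abs_div, abs_of_pos hn, abs_of_pos (by norm_num : (0:ℝ) < 2),
      ← mul_div_assoc, Real.log_div (by positivity) hn.ne']
    ring
  rw [h5] at h4
  exact h4

lemma LD.dv {f : ℝ → ℂ} {p q : ℂ} {t : ℝ} (hf : LD f p t) (hq : LD (fun s => 1 - f s) q t)
    (h0 : (f t).im ≠ 0) :
    HasDerivAt (fun s => Dv (f s)) (Real.log ‖f t‖ * q.im - Real.log ‖1 - f t‖ * p.im) t := by
  have hne : f t ≠ 0 := by
    intro h
    rw [h] at h0
    simp at h0
  have hne1 : 1 - f t ≠ 0 := by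
    intro h
    have h2 : f t = 1 := by linear_combination -h
    rw [h2] at h0
    simp at h0
  have hcont : ContinuousAt f t := HasDerivAt.continuousAt hf
  have hev : ∀ᶠ s in 𝓝 t, f s ≠ 0 := hcont.eventually_ne hne
  have e : (fun s => Dv (f s)) =ᶠ[𝓝 t]
      (fun s => Lam (f s) - Lam (1 - f s) + Lam ((1 - f s) / f s)) := by
    filter_upwards [hev] with s hs
    exact Dv_eq hs
  refine HasDerivAt.congr_of_eventuallyEq ?_ e
  have i2 : (1 - f t).im ≠ 0 := by simpa using h0
  have i3 : ((1 - f t) / f t).im = -(f t).im / ‖f t‖ ^ 2 := by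
    rw [sub_div, div_self hne, one_div]
    simp [Complex.inv_im, Complex.normSq_eq_norm_sq]
  have hn : 0 < ‖f t‖ := norm_pos_iff.2 hne
  have hn1 : 0 < ‖1 - f t‖ := norm_pos_iff.2 hne1
  have i3' : ((1 - f t) / f t).im ≠ 0 := by
    rw [i3]
    exact div_ne_zero (neg_ne_zero.2 h0) (by positivity)
  have d1 := hf.lam h0
  have d2 := hq.lam i2
  have d3 := (hq.div hf hne).lam i3'
  refine HasDerivAt.congr_deriv ((d1.sub d2).add d3) ?_
  have l1 : Real.log (2 * |((1 - f t) / f t).im|) = Real.log (2 * |(f t).im|) - 2 * Real.log ‖f t‖ := by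
    rw [i3, abs_div, abs_neg, abs_of_pos (by positivity : 0 < ‖f t‖ ^ 2), ← mul_div_assoc,
      Real.log_div (by positivity) (by positivity), Real.log_pow]
    push_cast
    ring
  have l2 : Real.log ‖(1 - f t) / f t‖ = Real.log ‖1 - f t‖ - Real.log ‖f t‖ := by
    rw [norm_div, Real.log_div hn1.ne' hn.ne']
  rw [l1, l2]
  simp only [Complex.sub_im, Complex.one_im, zero_sub, abs_neg]
  ring

/-! ### the five term relation -/

lemma real_mul_add {y : ℂ} (hy : y.im ≠ 0) {a b : ℝ} (h : (a : ℂ) = b * y) : a = 0 ∧ b = 0 := by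
  have h1 := congrArg Complex.im h
  simp at h1
  have hb : b = 0 := h1.resolve_right hy
  subst hb
  simp at h
  exact ⟨h, rfl⟩

lemma eq_re_of_im {z : ℂ} (h : z.im = 0) : z = (z.re : ℂ) := by
  apply Complex.ext <;> simp [h]

lemma five_generic {x y : ℂ} (hx0 : x ≠ 0) (hx1 : x ≠ 1) (hy : y.im ≠ 0) (hyx : (y / x).im ≠ 0) :
    Dv x - Dv y + Dv (y / x) - Dv (y * (1 - x) / (x * (1 - y))) + Dv ((1 - x) / (1 - y)) = 0 := by
  have hy0 : y ≠ 0 := by
    rintro rfl
    simp at hy
  have hc0 : 1 - x ≠ 0 := sub_ne_zero.2 (Ne.symm hx1)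
  have hd : ∀ t : ℝ, (1 : ℂ) - t * y ≠ 0 := by
    intro t h
    have h2 : ((1 : ℝ) : ℂ) = t * y := by
      push_cast
      linear_combination h
    exact one_ne_zero (real_mul_add hy h2).1
  have he : ∀ t : ℝ, x - t * y ≠ 0 := by
    intro t h
    have h2 : ((1 : ℝ) : ℂ) = t * (y / x) := by
      push_cast
      field_simp
      linear_combination h
    exact one_ne_zero (real_mul_add hyx h2).1
  set F : ℝ → ℝ := fun t => Dv x - Dv (t * y) + Dv (t * y / x) -
    Dv (t * y * (1 - x) / (x * (1 - t * y))) + Dv ((1 - x) / (1 - t * y)) with hF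
  have hcont : Continuous F := by
    have c1 : Continuous (fun t : ℝ => (t : ℂ) * y) := by fun_prop
    have c2 : Continuous (fun t : ℝ => (t : ℂ) * y / x) := by fun_prop
    have c3 : Continuous (fun t : ℝ => (t : ℂ) * y * (1 - x) / (x * (1 - t * y))) :=
      Continuous.div (by fun_prop) (by fun_prop) (fun t => mul_ne_zero hx0 (hd t))
    have c4 : Continuous (fun t : ℝ => (1 - x) / (1 - (t : ℂ) * y)) :=
      Continuous.div (by fun_prop) (by fun_prop) hd
    exact (((continuous_const.sub (Dv_cont.comp c1)).add (Dv_cont.comp c2)).sub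
      (Dv_cont.comp c3)).add (Dv_cont.comp c4)
  have hS1 : {t : ℝ | ((1 - x) / (1 - (t : ℂ) * y)).im = 0}.Subsingleton := by
    intro t ht t' ht'
    have h1 := eq_re_of_im ht
    have h2 := eq_re_of_im ht'
    set r := ((1 - x) / (1 - (t : ℂ) * y)).re
    set r' := ((1 - x) / (1 - (t' : ℂ) * y)).re
    rw [div_eq_iff (hd t)] at h1
    rw [div_eq_iff (hd t')] at h2
    have h3 : ((r - r' : ℝ) : ℂ) = (r * t - r' * t' : ℝ) * y := by
      push_cast
      linear_combination h2 - h1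
    obtain ⟨h4, h5⟩ := real_mul_add hy h3
    have h6 : r ≠ 0 := by
      intro h
      rw [h] at h1
      simp at h1
      exact hc0 h1
    have h7 : r' = r := by linarith
    rw [h7] at h5
    have h8 : r * (t - t') = 0 := by linarith
    have h9 := (mul_eq_zero.1 h8).resolve_left h6
    linarith
  have hS2 : {t : ℝ | t ≠ 0 ∧ ((t : ℂ) * y * (1 - x) / (x * (1 - t * y))).im = 0}.Subsingleton := by
    rintro t ⟨ht0, ht⟩ t' ⟨ht0', ht'⟩
    have h1 := eq_re_of_im ht
    have h2 := eq_re_of_im ht'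
    set r := ((t : ℂ) * y * (1 - x) / (x * (1 - t * y))).re
    set r' := ((t' : ℂ) * y * (1 - x) / (x * (1 - t' * y))).re
    rw [div_eq_iff (mul_ne_zero hx0 (hd t))] at h1
    rw [div_eq_iff (mul_ne_zero hx0 (hd t'))] at h2
    have h3 : ((r * t' - r' * t : ℝ) : ℂ) = (t * t' * (r - r') : ℝ) * y := by
      push_cast
      apply mul_left_cancel₀ hx0
      linear_combination (t : ℂ) * h2 - t' * h1
    obtain ⟨h4, h5⟩ := real_mul_add hy h3
    have h6 : r ≠ 0 := by
      intro h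
      rw [h] at h1
      simp at h1
      rcases h1 with (h1 | h1) | h1
      · exact ht0 h1
      · exact hy0 h1
      · exact hc0 h1
    have h7 : r' = r := by
      have := (mul_eq_zero.1 h5).resolve_left (mul_ne_zero ht0 ht0')
      linarith
    rw [h7] at h4
    have h8 : r * (t - t') = 0 := by linarith
    have h9 := (mul_eq_zero.1 h8).resolve_left h6
    linarith
  have key : ∫ t in (0:ℝ)..1, (0 : ℝ) = F 1 - F 0 := by
    refine MeasureTheory.integral_eq_of_hasDerivAt_off_countable_of_le F (fun _ => 0) zero_le_one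
      (hS1.countable.union hS2.countable) hcont.continuousOn ?_ (by simp)
    rintro t ⟨⟨ht0, ht1⟩, htS⟩
    rw [Set.mem_union, not_or] at htS
    obtain ⟨n1, n2⟩ := htS
    have ht : t ≠ 0 := ht0.ne'
    have htc : (t : ℂ) ≠ 0 := by exact_mod_cast ht
    have n1' : ((1 - x) / (1 - (t : ℂ) * y)).im ≠ 0 := n1
    have n2' : ((t : ℂ) * y * (1 - x) / (x * (1 - t * y))).im ≠ 0 := fun h => n2 ⟨ht, h⟩
    have hb : HasDerivAt (fun s : ℝ => (s : ℂ) * y) y t := by
      have := (hasDerivAt_id t).ofReal_comp.mul_const y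
      simpa using this
    have Lb : LD (fun s : ℝ => (s : ℂ) * y) (1 / t) t := by
      refine HasDerivAt.congr_deriv hb ?_
      field_simp
    have Ld : LD (fun s : ℝ => 1 - (s : ℂ) * y) (-y / (1 - t * y)) t := by
      refine HasDerivAt.congr_deriv (hb.const_sub 1) ?_
      rw [div_mul_cancel₀ _ (hd t)]
    have Le : LD (fun s : ℝ => x - (s : ℂ) * y) (-y / (x - t * y)) t := by
      refine HasDerivAt.congr_deriv (hb.const_sub x) ?_
      rw [div_mul_cancel₀ _ (he t)]
    have Lx : LD (fun _ : ℝ => x) 0 t := LD.const x t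
    have Lc : LD (fun _ : ℝ => 1 - x) 0 t := LD.const (1 - x) t
    have D1 := Lb.dv Ld (by simpa using ⟨ht, hy⟩)
    have D2 := (Lb.div Lx hx0).dv ((Le.div Lx hx0).congr (Eventually.of_forall fun s => by
      show 1 - (s : ℂ) * y / x = (x - s * y) / x
      field_simp)) (by
        show ((t : ℂ) * y / x).im ≠ 0
        rw [mul_div_assoc, Complex.im_ofReal_mul]
        exact mul_ne_zero ht hyx)
    have D3 := ((Lb.mul Lc).div (Lx.mul Ld) (mul_ne_zero hx0 (hd t))).dv
      ((Le.div (Lx.mul Ld) (mul_ne_zero hx0 (hd t))).congr (Eventually.of_forall fun s => by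
        have := hd s
        show 1 - (s : ℂ) * y * (1 - x) / (x * (1 - s * y)) = (x - s * y) / (x * (1 - s * y))
        field_simp
        ring)) n2'
    have D4 := (Lc.div Ld (hd t)).dv ((Le.div Ld (hd t)).congr (Eventually.of_forall fun s => by
      have := hd s
      show 1 - (1 - x) / (1 - (s : ℂ) * y) = (x - s * y) / (1 - s * y)
      field_simp
      ring)) n1'
    refine HasDerivAt.congr_deriv ((((D1.const_sub (Dv x)).add D2).sub D3).add D4) ?_
    have nx : ‖x‖ ≠ 0 := norm_ne_zero_iff.2 hx0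
    have nc : ‖1 - x‖ ≠ 0 := norm_ne_zero_iff.2 hc0
    have nb : ‖(t : ℂ) * y‖ ≠ 0 := norm_ne_zero_iff.2 (mul_ne_zero htc hy0)
    have nd : ‖1 - (t : ℂ) * y‖ ≠ 0 := norm_ne_zero_iff.2 (hd t)
    have ne : ‖x - (t : ℂ) * y‖ ≠ 0 := norm_ne_zero_iff.2 (he t)
    have hdt := hd t
    have l2 : Real.log ‖(t : ℂ) * y / x‖ = Real.log ‖(t : ℂ) * y‖ - Real.log ‖x‖ := by
      rw [norm_div, Real.log_div nb nx]
    have l2' : Real.log ‖1 - (t : ℂ) * y / x‖ = Real.log ‖x - (t : ℂ) * y‖ - Real.log ‖x‖ := by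
      rw [show 1 - (t : ℂ) * y / x = (x - t * y) / x by field_simp, norm_div, Real.log_div ne nx]
    have l3 : Real.log ‖(t : ℂ) * y * (1 - x) / (x * (1 - t * y))‖ = Real.log ‖(t : ℂ) * y‖ +
        Real.log ‖1 - x‖ - (Real.log ‖x‖ + Real.log ‖1 - (t : ℂ) * y‖) := by
      rw [norm_div, norm_mul, norm_mul x, Real.log_div (mul_ne_zero nb nc) (mul_ne_zero nx nd),
        Real.log_mul nb nc, Real.log_mul nx nd]
    have l3' : Real.log ‖1 - (t : ℂ) * y * (1 - x) / (x * (1 - t * y))‖ =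
        Real.log ‖x - (t : ℂ) * y‖ - (Real.log ‖x‖ + Real.log ‖1 - (t : ℂ) * y‖) := by
      rw [show 1 - (t : ℂ) * y * (1 - x) / (x * (1 - t * y)) = (x - t * y) / (x * (1 - t * y)) by
        field_simp; ring, norm_div, norm_mul x, Real.log_div ne (mul_ne_zero nx nd),
        Real.log_mul nx nd]
    have l4 : Real.log ‖(1 - x) / (1 - (t : ℂ) * y)‖ = Real.log ‖1 - x‖ -
        Real.log ‖1 - (t : ℂ) * y‖ := by
      rw [norm_div, Real.log_div nc nd]
    have l4' : Real.log ‖1 - (1 - x) / (1 - (t : ℂ) * y)‖ = Real.log ‖x - (t : ℂ) * y‖ -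
        Real.log ‖1 - (t : ℂ) * y‖ := by
      rw [show 1 - (1 - x) / (1 - (t : ℂ) * y) = (x - t * y) / (1 - t * y) by
        field_simp; ring, norm_div, Real.log_div ne nd]
    rw [l2, l2', l3, l3', l4, l4']
    simp only [Complex.sub_im, Complex.add_im, Complex.zero_im]
    ring
  have h1 : F 1 = F 0 := by
    rw [intervalIntegral.integral_zero] at key
    linarith
  simp only [hF, Complex.ofReal_one, Complex.ofReal_zero, one_mul, zero_mul, zero_div, sub_zero,
    div_one, Dv_zero, Dv_one_sub] at h1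
  linarith

lemma ev_ne (a : ℝ) : ∀ᶠ s : ℝ in 𝓝[≠] 0, s ≠ a := by
  rcases eq_or_ne a 0 with rfl | ha
  · exact self_mem_nhdsWithin
  · exact eventually_ne_nhdsWithin (Ne.symm ha)

lemma exists_dir (x : ℂ) (hx : x ≠ 0) : ∃ w : ℂ, w.im ≠ 0 ∧ (w / x).im ≠ 0 := by
  have hn : Complex.normSq x ≠ 0 := by simpa using hx
  by_cases h : x.re = 0
  · refine ⟨1 + Complex.I, by simp, ?_⟩
    have hi : x.im ≠ 0 := by
      intro h2
      exact hx (Complex.ext h h2)
    rw [Complex.div_im]
    simp only [Complex.add_im, Complex.one_im, Complex.I_im, Complex.add_re, Complex.one_re,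
      Complex.I_re, h]
    field_simp
    simpa using ⟨hi, hx⟩
  · refine ⟨Complex.I, by simp, ?_⟩
    rw [Complex.div_im]
    simp only [Complex.I_im, Complex.I_re]
    field_simp
    simpa using ⟨h, hx⟩

theorem five : S_FIVE := by
  intro x y hx0 hx1 hy0 hy1 hxy
  have hd : 1 - y ≠ 0 := sub_ne_zero.2 (Ne.symm hy1)
  have hc : 1 - x ≠ 0 := sub_ne_zero.2 (Ne.symm hx1)
  have e0 : (1 - x⁻¹) / (1 - y⁻¹) = y * (1 - x) / (x * (1 - y)) := by
    have h1 : 1 - y⁻¹ ≠ 0 := by
      intro h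
      have : y⁻¹ = 1 := by linear_combination -h
      exact hy1 (inv_eq_one.1 this)
    rw [div_eq_div_iff h1 (mul_ne_zero hx0 hd)]
    field_simp
    ring
  rw [e0]
  obtain ⟨w, hw1, hw2⟩ := exists_dir x hx0
  set F : ℂ → ℝ := fun y => Dv x - Dv y + Dv (y / x) - Dv (y * (1 - x) / (x * (1 - y))) +
    Dv ((1 - x) / (1 - y)) with hF
  have hFc : ContinuousAt F y := by
    have c2 : ContinuousAt (fun y : ℂ => y / x) y := by fun_prop
    have c3 : ContinuousAt (fun y : ℂ => y * (1 - x) / (x * (1 - y))) y :=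
      ContinuousAt.div (by fun_prop) (by fun_prop) (mul_ne_zero hx0 hd)
    have c4 : ContinuousAt (fun y : ℂ => (1 - x) / (1 - y)) y :=
      ContinuousAt.div (by fun_prop) (by fun_prop) hd
    exact (((continuousAt_const.sub Dv_cont.continuousAt).add
      (Dv_cont.continuousAt.comp c2)).sub (Dv_cont.continuousAt.comp c3)).add
      (Dv_cont.continuousAt.comp c4)
  have hpath : Tendsto (fun s : ℝ => y + s * w) (𝓝[≠] 0) (𝓝 y) := by
    have h1 : Continuous (fun s : ℝ => y + (s : ℂ) * w) := by fun_prop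
    have h2 := (h1.tendsto 0).mono_left (nhdsWithin_le_nhds (s := {0}ᶜ))
    simpa using h2
  have hlim := hFc.tendsto.comp hpath
  have hev : ∀ᶠ s : ℝ in 𝓝[≠] 0, F (y + s * w) = 0 := by
    filter_upwards [ev_ne (-y.im / w.im), ev_ne (-(y / x).im / (w / x).im)] with s h1 h2
    apply five_generic hx0 hx1
    · intro h
      apply h1
      rw [Complex.add_im, Complex.im_ofReal_mul] at h
      field_simp
      linarith
    · intro h
      apply h2
      rw [add_div, mul_div_assoc, Complex.add_im, Complex.im_ofReal_mul] at h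
      rw [eq_div_iff hw2]
      linarith
  have h3 : Tendsto (F ∘ fun s : ℝ => y + s * w) (𝓝[≠] 0) (𝓝 0) :=
    tendsto_const_nhds.congr' (hev.mono fun s hs => hs.symm)
  exact tendsto_nhds_unique hlim h3

/-! ### the volumes of the tetrahedra of one twist region telescope -/

theorem fan (hS : S_DSYM) (hF : S_FIVE) : S_FAN := by
  intro Y n h0 h1
  obtain ⟨-, hS2, hS3⟩ := hS
  have hY0 : Y ≠ 0 := norm_pos_iff.1 h0
  have hpow : ∀ m : ℕ, m ≠ 0 → Y ^ m ≠ 1 := by
    intro m hm h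
    have h2 := congrArg norm h
    rw [norm_pow, norm_one] at h2
    exact absurd h2 (ne_of_lt (pow_lt_one₀ h0.le h1 hm))
  have hsub : ∀ m : ℕ, m ≠ 0 → 1 - Y ^ m ≠ 0 := fun m hm => sub_ne_zero.2 (Ne.symm (hpow m hm))
  have hs1 : 1 - Y ≠ 0 := by simpa using hsub 1 one_ne_zero
  induction n with
  | zero => simp
  | succ n ih =>
    rw [Finset.sum_Icc_succ_top (by omega), ih]
    have a1 := hsub (n + 1) (by omega)
    have a2 := hsub (n + 2) (by omega)
    have a3 := hsub (n + 3) (by omega)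
    have key := hF ((1 - Y ^ (n + 2)) / (1 - Y)) ((1 - Y ^ (n + 3)) / (1 - Y))
      (div_ne_zero a2 hs1) (by
        rw [Ne, div_eq_one_iff_eq hs1]
        intro h
        have : Y * (1 - Y ^ (n + 1)) = 0 := by
          rw [pow_succ] at h
          linear_combination h
        rcases mul_eq_zero.1 this with h | h
        · exact hY0 h
        · exact a1 h) (div_ne_zero a3 hs1) (by
        rw [Ne, div_eq_one_iff_eq hs1]
        intro h
        have : Y * (1 - Y ^ (n + 2)) = 0 := by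
          rw [pow_succ] at h
          linear_combination h
        rcases mul_eq_zero.1 this with h | h
        · exact hY0 h
        · exact a2 h) (by
        rw [Ne, div_left_inj' hs1]
        intro h
        have : Y ^ (n + 2) * (1 - Y) = 0 := by
          rw [pow_succ Y (n + 2)] at h
          linear_combination -h
        rcases mul_eq_zero.1 this with h | h
        · exact pow_ne_zero _ hY0 h
        · exact hs1 h)
    have hx1 : 1 - (1 - Y ^ (n + 2)) / (1 - Y) = -(Y * (1 - Y ^ (n + 1))) / (1 - Y) := by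
      field_simp
      ring
    have hy1 : 1 - (1 - Y ^ (n + 3)) / (1 - Y) = -(Y * (1 - Y ^ (n + 2))) / (1 - Y) := by
      field_simp
      ring
    have b1 : (1 - Y ^ (n + 3)) / (1 - Y) / ((1 - Y ^ (n + 2)) / (1 - Y)) =
        (1 - Y ^ (n + 3)) / (1 - Y ^ (n + 2)) := by
      field_simp
    have b2 : (1 - (1 - Y ^ (n + 2)) / (1 - Y)) / (1 - (1 - Y ^ (n + 3)) / (1 - Y)) =
        ((1 - Y ^ (n + 2)) / (1 - Y ^ (n + 1)))⁻¹ := by
      rw [hx1, hy1]
      field_simp
    have hx2 : 1 - ((1 - Y ^ (n + 2)) / (1 - Y))⁻¹ = (Y * (1 - Y ^ (n + 1))) / (1 - Y ^ (n + 2)) := by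
      field_simp
      ring
    have hy2 : 1 - ((1 - Y ^ (n + 3)) / (1 - Y))⁻¹ = (Y * (1 - Y ^ (n + 2))) / (1 - Y ^ (n + 3)) := by
      field_simp
      ring
    have b3 : (1 - ((1 - Y ^ (n + 2)) / (1 - Y))⁻¹) / (1 - ((1 - Y ^ (n + 3)) / (1 - Y))⁻¹) =
        1 - ((1 - Y ^ (n + 1 + 1)) ^ 2 / (Y ^ (n + 1) * (1 - Y) ^ 2))⁻¹ := by
      rw [hx2, hy2]
      field_simp
      ring
    rw [b1, b2, b3, hS2, hS3, hS3] at key
    show _ + Dv ((1 - Y ^ (n + 1 + 1)) ^ 2 / (Y ^ (n + 1) * (1 - Y) ^ 2)) =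
      Dv ((1 - Y ^ (n + 3)) / (1 - Y ^ (n + 2))) - Dv ((1 - Y ^ (n + 3)) / (1 - Y))
    linarith

end Pool.Agent.W505.VC
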