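import Pool.Agent.W4.VC.Stms

/-!
# VC-HOM: the form of a product, its size, and the cubic case
-/

set_option autoImplicit false

namespace Pool.Agent.W505.VC

open Finset Polynomial Pool.Agent.W4.CF Pool.Agent.W4.VC

theorem hom_eq_eval (f : ℤ[X]) (n : ℕ) (a b : ℤ) :
    hom f n a b = MvPolynomial.eval ![a, b] (f.homogenize n) := by
  unfold hom Polynomial.homogenize
  rw [map_sum, Finset.Nat.antidiagonal_eq_map, Finset.sum_map]
  refine Finset.sum_congr rfl fun j hj => ?_
  rw [MvPolynomial.eval_monomial, Finsupp.prod_fintype _ _ (by intro i; simp)]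
  simp only [Fin.prod_univ_two]
  simp [mul_assoc] <;> rfl

theorem hom_mul (f g : ℤ[X]) (n m : ℕ) (hf : f.natDegree ≤ n) (hg : g.natDegree ≤ m) (a b : ℤ) :
    hom (f * g) (n + m) a b = hom f n a b * hom g m a b := by
  rw [hom_eq_eval, hom_eq_eval, hom_eq_eval, Polynomial.homogenize_mul f g hf hg, map_mul]

theorem hom_le (f : ℤ[X]) (n : ℕ) : ∃ C : ℝ, 1 ≤ C ∧ ∀ a b : ℤ,
    |((hom f n a b : ℤ) : ℝ)| ≤ C * (max |(a : ℝ)| |(b : ℝ)|) ^ n := by
  refine ⟨1 + ∑ j ∈ range (n + 1), |(f.coeff j : ℝ)|, ?_, ?_⟩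
  · have : 0 ≤ ∑ j ∈ range (n + 1), |(f.coeff j : ℝ)| :=
      Finset.sum_nonneg fun _ _ => abs_nonneg _
    linarith
  · intro a b
    set M := max |(a : ℝ)| |(b : ℝ)| with hM
    have hM0 : 0 ≤ M := le_trans (abs_nonneg _) (le_max_left _ _)
    have h1 : |((hom f n a b : ℤ) : ℝ)| ≤ ∑ j ∈ range (n + 1), |(f.coeff j : ℝ)| * M ^ n := by
      unfold hom
      push_cast
      refine (Finset.abs_sum_le_sum_abs _ _).trans (Finset.sum_le_sum fun j hj => ?_)
      rw [Finset.mem_range] at hj
      rw [abs_mul, abs_mul, abs_pow, abs_pow, mul_assoc]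
      refine mul_le_mul_of_nonneg_left ?_ (abs_nonneg _)
      calc |(a : ℝ)| ^ j * |(b : ℝ)| ^ (n - j) ≤ M ^ j * M ^ (n - j) := by
            apply mul_le_mul
            · exact pow_le_pow_left₀ (abs_nonneg _) (le_max_left _ _) _
            · exact pow_le_pow_left₀ (abs_nonneg _) (le_max_right _ _) _
            · positivity
            · positivity
        _ = M ^ n := by rw [← pow_add]; congr 1; omega
    refine h1.trans ?_
    rw [← Finset.sum_mul]
    have : 0 ≤ M ^ n := pow_nonneg hM0 n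
    nlinarith

theorem disc3_ne (f : ℤ[X]) (hf : Sqf f 3) :
    disc3 (f.coeff 3) (f.coeff 2) (f.coeff 1) (f.coeff 0) ≠ 0 := by
  obtain ⟨hsq, hdeg, hdeg'⟩ := hf
  set F := f.map (Int.castRingHom ℚ) with hF
  have hcoe : ∀ i, F.coeff i = (f.coeff i : ℚ) := fun i => by simp [hF]
  have hFdeg : F.natDegree = f.natDegree := by
    rw [hF]
    exact natDegree_map_eq_of_injective (RingHom.injective_int _) f
  by_cases h3 : f.coeff 3 = 0
  · -- degree two
    have hd2 : f.natDegree = 2 := by
      have : f.natDegree ≠ 3 := by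
        intro h
        have h0 : f.leadingCoeff = 0 := by rw [leadingCoeff, h, h3]
        rw [leadingCoeff_eq_zero] at h0
        rw [h0] at h
        simp at h
      omega
    have h2 : f.coeff 2 ≠ 0 := by
      intro h
      have h0 : f.leadingCoeff = 0 := by rw [leadingCoeff, hd2, h]
      rw [leadingCoeff_eq_zero] at h0
      rw [h0] at hd2
      simp at hd2
    intro hdisc
    have hD : (f.coeff 1) ^ 2 = 4 * f.coeff 2 * f.coeff 0 := by
      unfold disc3 at hdisc
      rw [h3] at hdisc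
      have h4 : (f.coeff 2) ^ 2 * ((f.coeff 1) ^ 2 - 4 * f.coeff 2 * f.coeff 0) = 0 := by
        linear_combination hdisc
      rcases mul_eq_zero.1 h4 with h5 | h5
      · exact absurd (pow_eq_zero_iff (two_ne_zero)|>.1 h5) h2
      · linarith
    have h2q : (f.coeff 2 : ℚ) ≠ 0 := by exact_mod_cast h2
    have hDq : (f.coeff 1 : ℚ) ^ 2 = 4 * f.coeff 2 * f.coeff 0 := by exact_mod_cast hD
    have hfac : F = C (f.coeff 2 : ℚ) * ((X + C ((f.coeff 1 : ℚ) / (2 * f.coeff 2))) *
        (X + C ((f.coeff 1 : ℚ) / (2 * f.coeff 2)))) := by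
      have e1 : F = C (F.coeff 2) * X ^ 2 + C (F.coeff 1) * X + C (F.coeff 0) :=
        eq_quadratic_of_degree_le_two (natDegree_le_iff_degree_le.1 (hFdeg.trans hd2).le)
      rw [hcoe, hcoe, hcoe] at e1
      rw [e1]
      have e2 : (f.coeff 1 : ℚ) = f.coeff 2 * (2 * ((f.coeff 1 : ℚ) / (2 * f.coeff 2))) := by
        field_simp
      have e3 : (f.coeff 0 : ℚ) = f.coeff 2 * ((f.coeff 1 : ℚ) / (2 * f.coeff 2)) ^ 2 := by
        field_simp
        linarith
      set t := (f.coeff 1 : ℚ) / (2 * f.coeff 2) with ht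
      rw [e2, e3]
      simp only [C_mul, C_pow, map_ofNat]
      ring
    have hu : IsUnit (X + C ((f.coeff 1 : ℚ) / (2 * f.coeff 2))) :=
      hsq _ ⟨C (f.coeff 2 : ℚ), by rw [hfac]; ring⟩
    have := natDegree_eq_zero_of_isUnit hu
    rw [natDegree_X_add_C] at this
    omega
  · -- degree three
    have h3q : (f.coeff 3 : ℚ) ≠ 0 := by exact_mod_cast h3
    set P : Cubic ℚ := ⟨f.coeff 3, f.coeff 2, f.coeff 1, f.coeff 0⟩ with hP
    have hPF : P.toPoly = F := by
      have e1 : F = C (F.coeff 3) * X ^ 3 + C (F.coeff 2) * X ^ 2 + C (F.coeff 1) * X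
          + C (F.coeff 0) := by
        conv_lhs => rw [F.as_sum_range_C_mul_X_pow' (n := 4) (by omega)]
        simp only [Finset.sum_range_succ, Finset.sum_range_zero]
        simp
        ring
      rw [hP, Cubic.toPoly, e1, hcoe, hcoe, hcoe, hcoe]
    have hsp : (P.toPoly.map (algebraMap ℚ (AlgebraicClosure ℚ))).Splits :=
      IsAlgClosed.splits _
    have hsep : F.Separable := PerfectField.separable_iff_squarefree.2 hsq
    have hnd : (P.map (algebraMap ℚ (AlgebraicClosure ℚ))).roots.Nodup := by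
      rw [Cubic.map_roots, hPF]
      exact nodup_roots (hsep.map)
    have hne := (Cubic.discr_ne_zero_iff_roots_nodup (P := P) h3q hsp).2 hnd
    intro h
    apply hne
    have : ((disc3 (f.coeff 3) (f.coeff 2) (f.coeff 1) (f.coeff 0) : ℤ) : ℚ) = 0 := by
      rw [h]; simp
    unfold disc3 at this
    push_cast at this
    rw [hP, Cubic.discr]
    simp only
    linear_combination this

theorem t_HOM : S_HOM := by
  refine ⟨fun f g n m hf hg a b => hom_mul f g n m hf hg a b, hom_le, fun f hf => ⟨disc3_ne f hf, ?_⟩⟩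
  intro a b
  unfold hom F3
  simp only [Finset.sum_range_succ, Finset.sum_range_zero]
  simp
  ring

end Pool.Agent.W505.VC
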