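import Pool.Agent.W4.VC.Stms

/-!
# VC-REV: exchanging the two variables of the form
-/

set_option autoImplicit false

namespace Pool.Agent.W505.VC

open Finset Polynomial Pool.Agent.W4.CF Pool.Agent.W4.VC

theorem hom_reflect (f : ℤ[X]) (n : ℕ) (a b : ℤ) : hom (f.reflect n) n b a = hom f n a b := by
  unfold hom
  rw [← Finset.sum_range_reflect]
  refine Finset.sum_congr rfl fun j hj => ?_
  rw [Finset.mem_range] at hj
  have e1 : n + 1 - 1 - j = n - j := by omega
  have e2 : n - (n - j) = j := by omega
  rw [coeff_reflect, e1, revAt_le (Nat.sub_le _ _), e2]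
  ring

theorem squarefree_reflect (F : ℚ[X]) (n : ℕ) (hF : Squarefree F) (h1 : F.natDegree ≤ n)
    (h2 : n ≤ F.natDegree + 1) : Squarefree (F.reflect n) := by
  have hF0 : F ≠ 0 := hF.ne_zero
  have hR0 : F.reflect n ≠ 0 := by
    rw [Ne, reflect_eq_zero_iff]
    exact hF0
  rintro q ⟨r, hr⟩
  have hq0 : q ≠ 0 := by
    rintro rfl
    rw [zero_mul, zero_mul] at hr
    exact hR0 hr
  have hr0 : r ≠ 0 := by
    rintro rfl
    rw [mul_zero] at hr
    exact hR0 hr
  have hdeg : q.natDegree + q.natDegree + r.natDegree ≤ n := by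
    have e1 : (F.reflect n).natDegree = q.natDegree + q.natDegree + r.natDegree := by
      rw [hr, natDegree_mul (mul_ne_zero hq0 hq0) hr0, natDegree_mul hq0 hq0]
    have e2 : (F.reflect n).natDegree ≤ max n F.natDegree := natDegree_reflect_le
    omega
  have hFeq : F = q.reflect q.natDegree * q.reflect q.natDegree *
      r.reflect (n - (q.natDegree + q.natDegree)) := by
    have e1 : F = (F.reflect n).reflect n := (reflect_reflect).symm
    have e2 : n = (q.natDegree + q.natDegree) + (n - (q.natDegree + q.natDegree)) := by omega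
    rw [e1, hr]
    conv_lhs => rw [e2]
    rw [reflect_mul (q * q) r natDegree_mul_le (by omega),
      reflect_mul q q le_rfl le_rfl]
  have hu : IsUnit (q.reflect q.natDegree) := hF _ ⟨_, hFeq⟩
  obtain ⟨c, hc, hcq⟩ := Polynomial.isUnit_iff.1 hu
  have hq : q = C c * X ^ q.natDegree := by
    have e1 : (q.reflect q.natDegree).reflect q.natDegree = q := reflect_reflect
    rw [← hcq, reflect_C] at e1
    exact e1.symm
  rcases Nat.eq_zero_or_pos q.natDegree with hd | hd
  · rw [hq, hd, pow_zero, mul_one]
    exact hc.map C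
  · exfalso
    have hdvd : X ^ 2 ∣ F.reflect n := by
      rw [hr, hq]
      have e3 : (X : ℚ[X]) ∣ C c * X ^ q.natDegree :=
        Dvd.dvd.mul_left (dvd_pow_self X (by omega)) _
      rw [pow_two]
      exact Dvd.dvd.mul_right (mul_dvd_mul e3 e3) _
    rw [X_pow_dvd_iff] at hdvd
    have c0 := hdvd 0 (by norm_num)
    have c1 := hdvd 1 (by norm_num)
    rw [coeff_reflect, revAt_le (by omega)] at c0 c1
    rw [Nat.sub_zero] at c0
    have hlc : F.coeff F.natDegree ≠ 0 := by
      rw [← leadingCoeff]
      exact leadingCoeff_ne_zero.2 hF0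
    rcases Nat.lt_or_ge F.natDegree n with h3 | h3
    · have : F.natDegree = n - 1 := by omega
      rw [this] at hlc
      exact hlc c1
    · have : F.natDegree = n := by omega
      rw [this] at hlc
      exact hlc c0

theorem natDegree_reflect_ge (F : ℚ[X]) (n : ℕ) (hF : Squarefree F) :
    n ≤ (F.reflect n).natDegree + 1 := by
  rcases Nat.eq_zero_or_pos n with hn | hn
  · omega
  by_contra hlt
  push Not at hlt
  have c0 : F.coeff 0 = 0 := by
    have e1 : (F.reflect n).coeff n = 0 := coeff_eq_zero_of_natDegree_lt (by omega)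
    rwa [coeff_reflect, revAt_le le_rfl, Nat.sub_self] at e1
  have c1 : F.coeff 1 = 0 := by
    have e1 : (F.reflect n).coeff (n - 1) = 0 := coeff_eq_zero_of_natDegree_lt (by omega)
    have e2 : n - (n - 1) = 1 := by omega
    rwa [coeff_reflect, revAt_le (by omega), e2] at e1
  have hdvd : X ^ 2 ∣ F := by
    rw [X_pow_dvd_iff]
    intro d hd
    interval_cases d
    · exact c0
    · exact c1
  rw [pow_two] at hdvd
  have := natDegree_eq_zero_of_isUnit (hF X hdvd)
  rw [natDegree_X] at this
  omega

theorem t_REV : S_REV := by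
  rintro f n ⟨hsq, h1, h2⟩
  refine ⟨f.reflect n, ⟨?_, ?_, ?_⟩, fun a b => hom_reflect f n a b⟩
  · rw [← reflect_map]
    have hd : (f.map (Int.castRingHom ℚ)).natDegree = f.natDegree :=
      natDegree_map_eq_of_injective (RingHom.injective_int _) f
    exact squarefree_reflect _ n hsq (by omega) (by omega)
  · have e2 : (f.reflect n).natDegree ≤ max n f.natDegree := natDegree_reflect_le
    omega
  · have hd : ((f.reflect n).map (Int.castRingHom ℚ)).natDegree = (f.reflect n).natDegree :=
      natDegree_map_eq_of_injective (RingHom.injective_int _) _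
    have := natDegree_reflect_ge (f.map (Int.castRingHom ℚ)) n hsq
    rw [reflect_map] at this
    omega

end Pool.Agent.W505.VC
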